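import Mathlib
import Pool.Agent.Q118.VC.Far2
import Pool.Agent.TH314.CSD.Scales
import Pool.Agent.Y327.Full

/-! # MP_77d073_nt: one box decides

Let `n ≥ 3` and let `F = L₁ ⋯ L_n` be a product of real linear forms with `|det L| = V > 0` and
`|F| ≥ ν > 0` at all nonzero integer points.  Let `T` be such that every product with the same
determinant takes a value of absolute value `< T` at a nonzero integer point.  All constants below
only depend on the numbers mentioned, not on the forms.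

1. (Every box contains values far from each other.)  For every `k` there is `C = C(n, V, ν, T, k)`
   and for all `Q` and `σ > 0` there is `ε = ε(n, V, ν, T, k, Q, σ) > 0` such that if Oppenheim's
   conclusion does not hold for `L` then every box `b i |L i x| ≤ C`, `b i > 0` of product one,
   contains for all real numbers `s₁, …, s_k` of absolute value at least `σ` a set of `k` nonzero
   integer points `x` with `|F x| < T` and `|q F x - p s_j| ≥ ε` for all integers `1 ≤ q ≤ Q`, all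
   integers `p` and all `j`, and with `|q F x - p F y| ≥ ε` for different points `x, y` of the set.
2. (One box decides.)  So Oppenheim's conclusion holds if in one box all small values of `F` are
   within `ε` of multiples of `s₁, …, s_k`, up to factors `≤ Q`; or if among any `k` points of one
   box with small values there are two with nearly commensurable values.
3. (Lines.)  Let `θ` be a direction generic in degree `n` (see `Generic`).  There is
   `N = N(n, ν, C, θ)` and for all `V, R, Q` there is `ε > 0` such that Oppenheim's conclusion holds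
   if near one segment of length `R` of the line `ℝ θ` there are more than `N` points with nearly
   commensurable values, `|q F x - p F y| < ε` with `1 ≤ q ≤ Q`.
4. (Recurrent systems.)  If `L` is a limit of each of its limits then 1 holds, uniformly for all
   limits, with `|F x| < T` replaced by the condition that `F x` is in a given bounded neighbourhood
   of any value of `F`.
5. (Equivalence.)  Oppenheim's conclusion holds for `L` if and only if for some `Q` and some finite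
   set `W` of nonzero real numbers for all `C` and `ε > 0` there is a box as in 1 in which all small
   values are within `ε` of multiples of elements of `W`, up to factors `≤ Q`. -/

set_option autoImplicit false

open Filter Topology

namespace Pool.Agent.Results.MP_77d073_nt.FarValues

variable {n : ℕ}

/-- the product of the linear forms with the coefficients `L i`, at an integer point -/
noncomputable def F (L : Fin n → Fin n → ℝ) (x : Fin n → ℤ) : ℝ :=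
  ∏ i : Fin n, ∑ j : Fin n, L i j * (x j : ℝ)

/-- the nonzero integer points of the box `b i |L i x| ≤ C` with value in `S` -/
def Box (L : Fin n → Fin n → ℝ) (b : Fin n → ℝ) (C : ℝ) (S : Set ℝ) : Set (Fin n → ℤ) :=
  {x | x ≠ 0 ∧ (∀ i, b i * |∑ j, L i j * (x j : ℝ)| ≤ C) ∧ F L x ∈ S}

/-- `q t` is within `ε` of an integral multiple of `s`, for some integer `1 ≤ q ≤ Q` -/
def NearMul (Q : ℕ) (ε s t : ℝ) : Prop := ∃ p q : ℤ, 1 ≤ q ∧ q ≤ Q ∧ |q * t - p * s| < ε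

/-- Oppenheim's conclusion: there is an irreducible RS-matrix whose invariant planes are the
hyperplanes `L i = 0`. -/
def HasMatrix (L : Fin n → Fin n → ℝ) : Prop :=
  ∃ A : Matrix (Fin n) (Fin n) ℤ,
    A.det = 1 ∧
    Irreducible (A.charpoly.map (Int.castRingHom ℚ)) ∧
    (∀ z : ℂ, Polynomial.aeval z A.charpoly = 0 → z.im = 0) ∧
    ∀ i : Fin n, ∀ x : Fin n → ℝ, ∑ j, L i j * x j = 0 →
      ∑ j, L i j * ((A.map (Int.cast : ℤ → ℝ)).mulVec x) j = 0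

/-- A direction of sum zero outside the hyperplanes given by two monomials of degree `D`. -/
def Generic (D : ℕ) (θ : Fin n → ℝ) : Prop :=
  ∑ i, θ i = 0 ∧ ∀ β γ : Fin n → ℕ, β ≠ γ → ∑ i, β i = D → ∑ i, γ i = D →
    ∑ i, ((β i : ℝ) - γ i) * θ i ≠ 0

/-- The nonzero integer points `x` with `|L i x| ≤ C e ^ (t θ i)` for all `i`, for some
`t ∈ I`. -/
def Near (L : Fin n → Fin n → ℝ) (θ : Fin n → ℝ) (C : ℝ) (I : Set ℝ) : Set (Fin n → ℤ) :=
  {x | x ≠ 0 ∧ ∃ t ∈ I, ∀ i, |∑ j, L i j * (x j : ℝ)| ≤ C * Real.exp (t * θ i)}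

/-- The limits of the systems `a i • (L i ∘ γ)`, `a` positive of product one, `γ` integral of
determinant `±1`. -/
def Limits (L : Fin n → Fin n → ℝ) : Set (Fin n → Fin n → ℝ) :=
  closure {L' | ∃ (a : Fin n → ℝ) (γ : Matrix (Fin n) (Fin n) ℤ), (∀ i, 0 < a i) ∧
    ∏ i, a i = 1 ∧ |γ.det| = 1 ∧ ∀ i j, L' i j = a i * ∑ k, L i k * (γ k j : ℝ)}

/-- `L` is a limit of each of its limits. -/
def Recurrent (L : Fin n → Fin n → ℝ) : Prop := ∀ L' ∈ Limits L, L ∈ Limits L'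

lemma limits_eq (L : Fin n → Fin n → ℝ) (L' : Fin n → Fin n → ℝ) :
    L' ∈ Limits L ↔ Matrix.of L' ∈ closure (H715R2.Orb (Matrix.of L)) := by
  have h1 : {L' : Fin n → Fin n → ℝ | ∃ (a : Fin n → ℝ) (γ : Matrix (Fin n) (Fin n) ℤ),
      (∀ i, 0 < a i) ∧ ∏ i, a i = 1 ∧ |γ.det| = 1 ∧
      ∀ i j, L' i j = a i * ∑ k, L i k * (γ k j : ℝ)} =
      (H715R2.Orb (Matrix.of L) : Set (Fin n → Fin n → ℝ)) := by
    ext h
    constructor
    · rintro ⟨a, γ, ha0, ha1, hγ, hh⟩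
      refine ⟨a, γ, ha0, ha1, Int.isUnit_iff_abs_eq.2 hγ, ?_⟩
      funext i j
      rw [hh, Matrix.mul_assoc, Matrix.diagonal_mul, Matrix.mul_apply]
      rfl
    · rintro ⟨a, γ, ha0, ha1, hγ, hh⟩
      refine ⟨a, γ, ha0, ha1, Int.isUnit_iff_abs_eq.1 hγ, fun i j => ?_⟩
      rw [hh, Matrix.mul_assoc, Matrix.diagonal_mul, Matrix.mul_apply]
      rfl
  unfold Limits
  rw [h1]
  rfl

open Pool.Agent.Q118.VC H715R2

lemma indep_of_det {L : Fin n → Fin n → ℝ} (h : (Matrix.of L).det ≠ 0) :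
    LinearIndependent ℝ L := by
  have h1 : IsUnit (Matrix.of L) :=
    (Matrix.isUnit_iff_isUnit_det _).2 (isUnit_iff_ne_zero.2 h)
  exact Matrix.linearIndependent_rows_iff_isUnit.2 h1

lemma indep_of_abs {L : Fin n → Fin n → ℝ} {V : ℝ} (hV : 0 < V)
    (h : |(Matrix.of L).det| = V) : (Matrix.of L).det ≠ 0 := by
  intro h0
  rw [h0, abs_zero] at h
  exact hV.ne h

lemma hasMatrix_of_propInt (hn : 3 ≤ n) {L : Fin n → Fin n → ℝ} (hL : (Matrix.of L).det ≠ 0)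
    {ν : ℝ} (hν : 0 < ν) (hb : ∀ x : Fin n → ℤ, x ≠ 0 → ν ≤ |F L x|)
    (hP : PropInt (Matrix.of L)) : HasMatrix L :=
  Pool.Agent.H905R2.Opp.opp_of_propInt (by omega) (indep_of_det hL) ⟨ν, hν, hb⟩ hP

lemma propInt (hn : 3 ≤ n) {L : Fin n → Fin n → ℝ} (hL : (Matrix.of L).det ≠ 0) {ν : ℝ}
    (hν : 0 < ν) (hb : ∀ x : Fin n → ℤ, x ≠ 0 → ν ≤ |F L x|) (h : HasMatrix L) :
    PropInt (Matrix.of L) := by
  obtain ⟨A, -, hA1, -, hA2⟩ := h
  exact Y327.propInt_of_opp hn hL hν hb hA1 hA2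

theorem result (n : ℕ) (hn : 3 ≤ n) :
    -- 1, 2, 5. boxes
    (∀ V ν T : ℝ, 0 < V → 0 < ν →
      ((n.factorial : ℝ) * V < (n : ℝ) ^ n * T ∨
        ∀ L : Fin n → Fin n → ℝ, |(Matrix.of L).det| = V → ∃ x : Fin n → ℤ, x ≠ 0 ∧ |F L x| < T) →
      (∀ k : ℕ, ∃ C : ℝ, 0 < C ∧ ∀ (Q : ℕ) (σ : ℝ), 0 < σ → ∃ ε : ℝ, 0 < ε ∧
        ∀ L : Fin n → Fin n → ℝ, |(Matrix.of L).det| = V →
        (∀ x : Fin n → ℤ, x ≠ 0 → ν ≤ |F L x|) →
        ∀ b : Fin n → ℝ, (∀ i, 0 < b i) → ∏ i, b i = 1 →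
        (¬ HasMatrix L → ∀ W : Finset ℝ, W.card ≤ k → (∀ s ∈ W, σ ≤ |s|) →
          ∃ P : Finset (Fin n → ℤ), P.card = k ∧
          (∀ x ∈ P, x ∈ Box L b C (Set.Ioo (-T) T) ∧ ∀ s ∈ W, ¬ NearMul Q ε s (F L x)) ∧
          ∀ x ∈ P, ∀ y ∈ P, x ≠ y → ¬ NearMul Q ε (F L y) (F L x)) ∧
        ((∃ W : Finset ℝ, W.card ≤ k ∧ 1 ≤ k ∧ (∀ s ∈ W, σ ≤ |s|) ∧
            ∀ x ∈ Box L b C (Set.Ioo (-T) T), ∃ s ∈ W, NearMul Q ε s (F L x)) → HasMatrix L) ∧
        ((∀ P : Finset (Fin n → ℤ), P.card = k → (∀ x ∈ P, x ∈ Box L b C (Set.Ioo (-T) T)) →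
            ∃ x ∈ P, ∃ y ∈ P, x ≠ y ∧ NearMul Q ε (F L y) (F L x)) → HasMatrix L)) ∧
      (∀ L : Fin n → Fin n → ℝ, |(Matrix.of L).det| = V →
        (∀ x : Fin n → ℤ, x ≠ 0 → ν ≤ |F L x|) →
        (HasMatrix L ↔ ∃ (Q : ℕ) (W : Finset ℝ), 0 ∉ W ∧ ∀ C ε : ℝ, 0 < ε →
          ∃ b : Fin n → ℝ, (∀ i, 0 < b i) ∧ ∏ i, b i = 1 ∧
          ∀ x ∈ Box L b C (Set.Ioo (-T) T), ∃ s ∈ W, NearMul Q ε s (F L x)))) ∧
    -- 3. lines
    (∀ θ : Fin n → ℝ, Generic n θ → ∀ ν C : ℝ, 0 < ν → 0 < C → ∃ N : ℕ,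
      ∀ V : ℝ, 0 < V → ∀ (R : ℝ) (Q : ℕ), 0 ≤ R → ∃ ε : ℝ, 0 < ε ∧
        ∀ L : Fin n → Fin n → ℝ, |(Matrix.of L).det| = V →
        (∀ x : Fin n → ℤ, x ≠ 0 → ν ≤ |F L x|) →
        ∀ t₀ : ℝ, ∀ P : Finset (Fin n → ℤ), N < P.card →
          (∀ x ∈ P, x ∈ Near L θ C (Set.Icc t₀ (t₀ + R))) →
          (∀ x ∈ P, ∀ y ∈ P, NearMul Q ε (F L y) (F L x)) → HasMatrix L) ∧
    -- 4. recurrent systems
    (∀ L : Fin n → Fin n → ℝ, LinearIndependent ℝ L → ∀ ν : ℝ, 0 < ν →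
      (∀ x : Fin n → ℤ, x ≠ 0 → ν ≤ |F L x|) → Recurrent L → ¬ HasMatrix L →
      ∀ x₀ : Fin n → ℤ, x₀ ≠ 0 → ∀ U : Set ℝ, IsOpen U → F L x₀ ∈ U → ∀ k : ℕ,
      ∃ C : ℝ, 0 < C ∧ ∀ (Q : ℕ) (σ : ℝ), 0 < σ → ∃ ε : ℝ, 0 < ε ∧ ∀ L' ∈ Limits L,
        ∀ b : Fin n → ℝ, (∀ i, 0 < b i) → ∏ i, b i = 1 →
        ∀ W : Finset ℝ, W.card ≤ k → (∀ s ∈ W, σ ≤ |s|) →
          ∃ P : Finset (Fin n → ℤ), P.card = k ∧
          (∀ x ∈ P, x ∈ Box L' b C U ∧ ∀ s ∈ W, ¬ NearMul Q ε s (F L' x)) ∧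
          ∀ x ∈ P, ∀ y ∈ P, x ≠ y → ¬ NearMul Q ε (F L' y) (F L' x)) := by
  classical
  have hn0 : 0 < n := by omega
  have hn2 : 2 ≤ n := by omega
  refine ⟨?_, ?_, ?_⟩
  · intro V ν T hV hν hT
    obtain ⟨hYc, hYinv, hYS⟩ := all_data (d := n) (ν := ν) hn0 hV hT
    have main : ∀ k : ℕ, ∃ C : ℝ, 0 < C ∧ ∀ (Q : ℕ) (σ : ℝ), 0 < σ → ∃ ε : ℝ, 0 < ε ∧
        ∀ L : Fin n → Fin n → ℝ, |(Matrix.of L).det| = V →
        (∀ x : Fin n → ℤ, x ≠ 0 → ν ≤ |F L x|) →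
        ∀ b : Fin n → ℝ, (∀ i, 0 < b i) → ∏ i, b i = 1 →
        ¬ HasMatrix L → ∀ W : Finset ℝ, W.card ≤ k → (∀ s ∈ W, σ ≤ |s|) →
          ∃ P : Finset (Fin n → ℤ), P.card = k ∧
          (∀ x ∈ P, x ∈ Box L b C (Set.Ioo (-T) T) ∧ ∀ s ∈ W, ¬ NearMul Q ε s (F L x)) ∧
          ∀ x ∈ P, ∀ y ∈ P, x ≠ y → ¬ NearMul Q ε (F L y) (F L x) := by
      intro k
      obtain ⟨C, hC, h⟩ := far_from hn hV hν hYc hYinv (fun h hh => hh.1) (fun h hh => hh.2)
        isOpen_Ioo (T := T) (fun t ht => (abs_lt.2 ht).le) hYS k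
      refine ⟨C, hC, fun Q σ hσ => ?_⟩
      obtain ⟨ε, hε, h⟩ := h Q σ hσ
      refine ⟨ε, hε, fun L hLV hb b hb0 hb1 hM W hWc hW => ?_⟩
      obtain ⟨P, hPc, hP, hP'⟩ := h (Matrix.of L) ⟨hLV, hb⟩
        (fun hP => hM (hasMatrix_of_propInt hn (indep_of_abs hV hLV) hν hb hP)) b hb0 hb1 W hWc hW
      exact ⟨P, hPc, fun x hx => ⟨⟨(hP x hx).1, (hP x hx).2.1, (hP x hx).2.2.1⟩,
        (hP x hx).2.2.2⟩, hP'⟩
    refine ⟨fun k => ?_, fun L hLV hb => ⟨fun hM => ?_, ?_⟩⟩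
    · obtain ⟨C, hC, h⟩ := main k
      refine ⟨C, hC, fun Q σ hσ => ?_⟩
      obtain ⟨ε, hε, h⟩ := h Q σ hσ
      refine ⟨ε, hε, fun L hLV hb b hb0 hb1 => ⟨h L hLV hb b hb0 hb1, ?_, ?_⟩⟩
      · rintro ⟨W, hWc, hk, hW, hWx⟩
        by_contra hM
        obtain ⟨P, hPc, hP, -⟩ := h L hLV hb b hb0 hb1 hM W hWc hW
        obtain ⟨x, hx⟩ := Finset.card_pos.1 (by omega : 0 < P.card)
        obtain ⟨s, hs, hsx⟩ := hWx x (hP x hx).1
        exact (hP x hx).2 s hs hsx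
      · intro hpair
        by_contra hM
        obtain ⟨P, hPc, hP, hP'⟩ := h L hLV hb b hb0 hb1 hM ∅ (by simp) (by simp)
        obtain ⟨x, hx, y, hy, hxy, hnear⟩ := hpair P hPc fun x hx => (hP x hx).1
        exact hP' x hx y hy hxy hnear
    · obtain ⟨c, hc, hval⟩ := values_of_propInt (propInt hn (indep_of_abs hV hLV) hν hb hM)
      refine ⟨1, {c}, by simpa using hc.symm, fun C ε hε => ⟨fun _ => 1, fun i => one_pos,
        Finset.prod_const_one, fun x hx => ⟨c, Finset.mem_singleton_self c, ?_⟩⟩⟩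
      obtain ⟨z, hz⟩ := hval x
      refine ⟨z, 1, le_refl _, by simp, ?_⟩
      have h1 : F L x = c * z := hz
      rw [h1, Int.cast_one, one_mul, mul_comm (z : ℝ) c, sub_self, abs_zero]
      exact hε
    · rintro ⟨Q, W, hW0, hWx⟩
      by_contra hM
      obtain ⟨C, hC, h⟩ := main (W.card + 1)
      obtain ⟨σ, hσ, hσW⟩ : ∃ σ : ℝ, 0 < σ ∧ ∀ s ∈ W, σ ≤ |s| := by
        rcases W.eq_empty_or_nonempty with rfl | hne
        · exact ⟨1, one_pos, by simp⟩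
        · obtain ⟨s, hs, hmin⟩ := W.exists_min_image (fun s => |s|) hne
          exact ⟨|s|, abs_pos.2 fun h0 => hW0 (h0 ▸ hs), hmin⟩
      obtain ⟨ε, hε, h⟩ := h Q σ hσ
      obtain ⟨b, hb0, hb1, hbox⟩ := hWx C ε hε
      obtain ⟨P, hPc, hP, -⟩ := h L hLV hb b hb0 hb1 hM W (by omega) hσW
      obtain ⟨x, hx⟩ := Finset.card_pos.1 (by omega : 0 < P.card)
      obtain ⟨s, hs, hsx⟩ := hbox x (hP x hx).1
      exact (hP x hx).2 s hs hsx
  · -- 3
    intro θ hθ ν C hν hC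
    obtain ⟨N, hN⟩ := line_near hn hν hC hθ
    refine ⟨N, fun V hV R Q hR => ?_⟩
    obtain ⟨ε, hε, h⟩ := hN V hV R Q hR
    exact ⟨ε, hε, fun L hLV hb t₀ P hPc hP hnear =>
      hasMatrix_of_propInt hn (indep_of_abs hV hLV) hν hb
        (h (Matrix.of L) hLV hb t₀ P hPc hP hnear)⟩
  · -- 4
    intro L hL ν hν hb hrec hM x₀ hx₀ U hU hxU k
    have hdet : (Matrix.of L).det ≠ 0 := Pool.Agent.H905R2.Opp.det_ne hL
    have hrec' : TH314.CSD.Recurrent (Matrix.of L) := by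
      intro h' hh'
      have h1 := hrec (fun i j => h' i j) ((limits_eq L _).2 hh')
      exact (limits_eq _ _).1 h1
    set U' : Set ℝ := U ∩ Metric.ball (F L x₀) 1 with hU'
    have hU'o : IsOpen U' := hU.inter Metric.isOpen_ball
    have hxU' : F L x₀ ∈ U' := ⟨hxU, Metric.mem_ball_self one_pos⟩
    obtain ⟨C, hC, h⟩ := far_from hn (abs_pos.2 hdet) hν
      (Y := closure (Orb (Matrix.of L))) isClosed_closure (TH314.CSD.inv_closure _)
      (fun h' hh' => abs_det_closure hh') (fun h' hh' => hasNu_closure hb hh') hU'o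
      (T := |F L x₀| + 1) (fun t ht => by
        have h1 := ht.2
        rw [Metric.mem_ball, Real.dist_eq] at h1
        have h2 : |t| ≤ |F L x₀| + |t - F L x₀| := by
          calc |t| = |F L x₀ + (t - F L x₀)| := by congr 1; ring
            _ ≤ _ := abs_add_le _ _
        linarith)
      (fun h' hh' => TH314.CSD.exists_value_near (hrec' h' hh') hx₀ (hU'o.mem_nhds hxU')) k
    refine ⟨C, hC, fun Q σ hσ => ?_⟩
    obtain ⟨ε, hε, h⟩ := h Q σ hσ
    refine ⟨ε, hε, fun L' hL' b hb0 hb1 W hWc hW => ?_⟩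
    have hint : ¬ PropInt (Matrix.of L') := fun hP => by
      have h1 := (limits_eq L L').1 hL'
      exact Y327.not_propInt_closure hn hdet hν hb
        (fun hP' => hM (hasMatrix_of_propInt hn hdet hν hb hP')) h1 hP
    obtain ⟨P, hPc, hP, hP'⟩ := h (Matrix.of L') ((limits_eq L L').1 hL') hint b hb0 hb1 W hWc hW
    exact ⟨P, hPc, fun x hx => ⟨⟨(hP x hx).1, (hP x hx).2.1, (hP x hx).2.2.1.1⟩,
      (hP x hx).2.2.2⟩, hP'⟩

end Pool.Agent.Results.MP_77d073_nt.FarValues
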