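import Mathlib
import Pool.Agent.Q118.VC.Pack
import Pool.Agent.Y327.Full

/-! # MP_77d073_nt: the small values of a product of linear forms near a generic line

Let `n ≥ 3` and let `F = L₁ ⋯ L_n` be a product of independent real linear forms with
`|F| ≥ ν > 0` at all nonzero integer points.  Let `θ ∈ ℝ ^ n` be a direction with `∑ θ i = 0`.  We
look at the nonzero integer points near the line `ℝ θ`, that is at the points `x ≠ 0` such that
`|L i x| ≤ C e ^ (t θ i)` for all `i`, for some real `t`.  The direction is *generic in degree `D`*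
if it is outside the finitely many hyperplanes `∑ (β i - γ i) θ i = 0`, where `β ≠ γ` are exponents
of monomials of degree `D`.

1. (Hypersurfaces.)  If `θ` is generic in degree `D`, then every hypersurface `G = 0` of degree `D`,
   `G` any nonzero real form, contains at most `N` of the integer points near the line, where `N`
   only depends on `n, ν, C, D, θ`.  On the other hand let `T` be such that every product of `n`
   forms with `|det L| = V` takes a value of absolute value `< T`.  There are `C` and `κ > 0`, which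
   only depend on `n, V, ν, T` and (`κ`) on `D, θ`, such that the points with `|F x| < T` near each
   segment of length `R` of the line are not covered by fewer than `κ R` hypersurfaces of degree
   `D`.
2. (Values.)  Let `θ` be generic in degree `n`.  A `ℚ`-subspace `E` of `ℝ` which contains the value
   of `F` at more than `N` integer points near the line contains all values of `F` at integer
   points.  If `F` takes commensurable values at more than `N` integer points near the line, then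
   Oppenheim's conclusion holds.  The values `F x`, `|F x| < T`, at the points near a segment of
   length `R` are not covered by fewer than `κ R` rational subspaces none of which contains all
   values.  If `K` is a subfield of `ℝ` such that some quotient of values is not in `K`, then there
   are at least `κ R` such points with pairwise quotients `F x / F y` not in `K`; if Oppenheim's
   conclusion does not hold, there are at least `κ R` such points with pairwise incommensurable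
   values.
3. (Dichotomy.)  Oppenheim's conclusion holds if and only if some value is taken infinitely often
   near some generic line.  In this case every value is taken with linear growth near every line.
4. (Boxes.)  There is `C = C(n, V, ν, T, D)` such that in every box `|L i x| ≤ C / b i`,
   `b i > 0` of product one, the points with `|F x| < T` are not on a hypersurface of degree `D`; if
   Oppenheim's conclusion does not hold then two of them (`D = n`) have incommensurable values. -/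

set_option autoImplicit false

open Filter Topology

namespace Pool.Agent.Results.MP_77d073_nt.GenericLines

variable {n : ℕ}

/-- the product of the linear forms with the coefficients `L i`, at an integer point -/
noncomputable def F (L : Fin n → Fin n → ℝ) (x : Fin n → ℤ) : ℝ :=
  ∏ i : Fin n, ∑ j : Fin n, L i j * (x j : ℝ)

/-- the value of a real polynomial at an integer point -/
noncomputable def val (G : MvPolynomial (Fin n) ℝ) (x : Fin n → ℤ) : ℝ :=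
  MvPolynomial.eval (fun j => (x j : ℝ)) G

/-- Oppenheim's conclusion: there is an irreducible RS-matrix whose invariant planes are the
hyperplanes `L i = 0`. -/
def HasMatrix (L : Fin n → Fin n → ℝ) : Prop :=
  ∃ A : Matrix (Fin n) (Fin n) ℤ,
    A.det = 1 ∧
    Irreducible (A.charpoly.map (Int.castRingHom ℚ)) ∧
    (∀ z : ℂ, Polynomial.aeval z A.charpoly = 0 → z.im = 0) ∧
    ∀ i : Fin n, ∀ x : Fin n → ℝ, ∑ j, L i j * x j = 0 →
      ∑ j, L i j * ((A.map (Int.cast : ℤ → ℝ)).mulVec x) j = 0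

/-- A direction of sum zero outside the hyperplanes given by two monomials of degree `D`. -/
def Generic (D : ℕ) (θ : Fin n → ℝ) : Prop :=
  ∑ i, θ i = 0 ∧ ∀ β γ : Fin n → ℕ, β ≠ γ → ∑ i, β i = D → ∑ i, γ i = D →
    ∑ i, ((β i : ℝ) - γ i) * θ i ≠ 0

/-- The nonzero integer points `x` with `|L i x| ≤ C e ^ (t θ i)` for all `i`, for some
`t ∈ I`. -/
def Near (L : Fin n → Fin n → ℝ) (θ : Fin n → ℝ) (C : ℝ) (I : Set ℝ) : Set (Fin n → ℤ) :=
  {x | x ≠ 0 ∧ ∃ t ∈ I, ∀ i, |∑ j, L i j * (x j : ℝ)| ≤ C * Real.exp (t * θ i)}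

open Pool.Agent.Q118.VC H715R2

lemma det_ne {L : Fin n → Fin n → ℝ} (h : LinearIndependent ℝ L) : (Matrix.of L).det ≠ 0 :=
  Pool.Agent.H905R2.Opp.det_ne h

lemma indep_of_det {L : Fin n → Fin n → ℝ} (h : (Matrix.of L).det ≠ 0) :
    LinearIndependent ℝ L := by
  have h1 : IsUnit (Matrix.of L) :=
    (Matrix.isUnit_iff_isUnit_det _).2 (isUnit_iff_ne_zero.2 h)
  exact Matrix.linearIndependent_rows_iff_isUnit.2 h1

lemma indep_of_abs {L : Fin n → Fin n → ℝ} {V : ℝ} (hV : 0 < V)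
    (h : |(Matrix.of L).det| = V) : (Matrix.of L).det ≠ 0 := by
  intro h0
  rw [h0, abs_zero] at h
  exact hV.ne h

lemma not_propInt (hn : 3 ≤ n) {L : Fin n → Fin n → ℝ} (hL : (Matrix.of L).det ≠ 0) {ν : ℝ}
    (hν : 0 < ν) (hb : ∀ x : Fin n → ℤ, x ≠ 0 → ν ≤ |F L x|) (h : ¬ HasMatrix L) :
    ¬ PropInt (Matrix.of L) := fun hP =>
  h (Pool.Agent.H905R2.Opp.opp_of_propInt (by omega) (indep_of_det hL) ⟨ν, hν, hb⟩ hP)

lemma propInt (hn : 3 ≤ n) {L : Fin n → Fin n → ℝ} (hL : (Matrix.of L).det ≠ 0) {ν : ℝ}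
    (hν : 0 < ν) (hb : ∀ x : Fin n → ℤ, x ≠ 0 → ν ≤ |F L x|) (h : HasMatrix L) :
    PropInt (Matrix.of L) := by
  obtain ⟨A, -, hA1, -, hA2⟩ := h
  exact Y327.propInt_of_opp hn hL hν hb hA1 hA2

/-- some quotient of values is irrational -/
lemma exists_notMem_bot (hn : 3 ≤ n) {L : Fin n → Fin n → ℝ} (hL : (Matrix.of L).det ≠ 0)
    {ν : ℝ} (hν : 0 < ν) (hb : ∀ x : Fin n → ℤ, x ≠ 0 → ν ≤ |F L x|) (h : ¬ HasMatrix L) :
    ∃ x y : Fin n → ℤ, x ≠ 0 ∧ y ≠ 0 ∧ F L x / F L y ∉ (⊥ : Subfield ℝ) := by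
  by_contra hcon
  push Not at hcon
  have hP := not_propInt hn hL hν hb h
  set y : Fin n → ℤ := fun _ => 1 with hy
  have hy0 : y ≠ 0 := by
    intro h0
    have := congrFun h0 ⟨0, by omega⟩
    simp [hy] at this
  have hyne : F L y ≠ 0 := by
    intro h0
    have := hb y hy0
    rw [h0, abs_zero] at this
    linarith
  refine hP (propInt_of_values hyne fun x => ?_)
  rw [Submodule.mem_span_singleton]
  by_cases hx : x = 0
  · refine ⟨0, ?_⟩
    rw [zero_smul, hx]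
    have h0 : iR (0 : Fin n → ℤ) = 0 := by
      funext i
      simp [iR]
    rw [h0]
    unfold FF
    symm
    refine Finset.prod_eq_zero (Finset.mem_univ ⟨0, by omega⟩) ?_
    simp
  · have h1 := hcon x y hx hy0
    have h2 : (⊥ : Subfield ℝ) ≤ (algebraMap ℚ ℝ).fieldRange := bot_le
    obtain ⟨q, hq⟩ := h2 h1
    refine ⟨q, ?_⟩
    rw [Rat.smul_def]
    have h3 : (q : ℝ) = F L x / F L y := hq
    rw [h3, div_mul_cancel₀ _ hyne]
    rfl

lemma irrational_of_notMem {t : ℝ} (h : t ∉ (⊥ : Subfield ℝ)) : Irrational t := by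
  rintro ⟨q, rfl⟩
  exact h (SubfieldClass.ratCast_mem _ q)

theorem result (n : ℕ) (hn : 3 ≤ n) :
    -- generic directions exist in every degree
    (∀ D : ℕ, ∃ θ : Fin n → ℝ, Generic D θ) ∧
    -- 1a. few points on a hypersurface
    (∀ (D : ℕ) (θ : Fin n → ℝ), Generic D θ → ∀ ν C : ℝ, 0 < ν → 0 < C → ∃ N : ℕ,
      ∀ L : Fin n → Fin n → ℝ, LinearIndependent ℝ L →
      (∀ x : Fin n → ℤ, x ≠ 0 → ν ≤ |F L x|) →
      ∀ G : MvPolynomial (Fin n) ℝ, G ≠ 0 → G.IsHomogeneous D → ∀ P : Finset (Fin n → ℤ),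
        (∀ x ∈ P, x ∈ Near L θ C Set.univ ∧ val G x = 0) → P.card ≤ N) ∧
    -- 2a. few values in a rational subspace; few commensurable values
    (∀ θ : Fin n → ℝ, Generic n θ → ∀ ν C : ℝ, 0 < ν → 0 < C → ∃ N : ℕ,
      ∀ L : Fin n → Fin n → ℝ, LinearIndependent ℝ L →
      (∀ x : Fin n → ℤ, x ≠ 0 → ν ≤ |F L x|) →
      ∀ P : Finset (Fin n → ℤ), (∀ x ∈ P, x ∈ Near L θ C Set.univ) → N < P.card →
        (∀ E : Submodule ℚ ℝ, (∀ x ∈ P, F L x ∈ E) → ∀ x, F L x ∈ E) ∧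
        ((∀ x ∈ P, ∀ y ∈ P, ∃ q : ℚ, F L x = q * F L y) → HasMatrix L)) ∧
    -- 1b, 2b. many hypersurfaces, many rational subspaces, many classes
    (∀ V ν T : ℝ, 0 < V → 0 < ν →
      ((n.factorial : ℝ) * V < (n : ℝ) ^ n * T ∨
        ∀ L : Fin n → Fin n → ℝ, |(Matrix.of L).det| = V → ∃ x : Fin n → ℤ, x ≠ 0 ∧ |F L x| < T) →
      ∃ C : ℝ, 0 < C ∧ ∀ (D : ℕ) (θ : Fin n → ℝ), 1 ≤ D → Generic D θ → ∃ κ : ℝ, 0 < κ ∧
        ∀ L : Fin n → Fin n → ℝ, |(Matrix.of L).det| = V →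
        (∀ x : Fin n → ℤ, x ≠ 0 → ν ≤ |F L x|) → ∀ t₀ R : ℝ, 0 ≤ R →
        (∀ 𝓖 : Finset (MvPolynomial (Fin n) ℝ), (∀ G ∈ 𝓖, G ≠ 0 ∧ G.IsHomogeneous D) →
          (𝓖.card : ℝ) < κ * R →
          ∃ x ∈ Near L θ C (Set.Icc t₀ (t₀ + R)), |F L x| < T ∧ ∀ G ∈ 𝓖, val G x ≠ 0) ∧
        (D = n →
          (∀ 𝓔 : Finset (Submodule ℚ ℝ), (∀ E ∈ 𝓔, ∃ x, F L x ∉ E) → (𝓔.card : ℝ) < κ * R →
            ∃ x ∈ Near L θ C (Set.Icc t₀ (t₀ + R)), |F L x| < T ∧ ∀ E ∈ 𝓔, F L x ∉ E) ∧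
          (∀ K : Subfield ℝ, (∃ x y : Fin n → ℤ, x ≠ 0 ∧ y ≠ 0 ∧ F L x / F L y ∉ K) →
            ∃ P : Finset (Fin n → ℤ), κ * R ≤ P.card ∧
              (∀ x ∈ P, x ∈ Near L θ C (Set.Icc t₀ (t₀ + R)) ∧ |F L x| < T) ∧
              ∀ x ∈ P, ∀ y ∈ P, x ≠ y → F L x / F L y ∉ K) ∧
          (¬ HasMatrix L →
            ∃ P : Finset (Fin n → ℤ), κ * R ≤ P.card ∧
              (∀ x ∈ P, x ∈ Near L θ C (Set.Icc t₀ (t₀ + R)) ∧ |F L x| < T) ∧
              ∀ x ∈ P, ∀ y ∈ P, x ≠ y → Irrational (F L x / F L y)))) ∧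
    -- 3. dichotomy
    (∀ L : Fin n → Fin n → ℝ, LinearIndependent ℝ L → ∀ ν : ℝ, 0 < ν →
      (∀ x : Fin n → ℤ, x ≠ 0 → ν ≤ |F L x|) →
      (HasMatrix L ↔ ∃ θ : Fin n → ℝ, Generic n θ ∧ ∃ C t : ℝ,
        {x | x ∈ Near L θ C Set.univ ∧ F L x = t}.Infinite) ∧
      (HasMatrix L → ∀ x₀ : Fin n → ℤ, x₀ ≠ 0 → ∃ C : ℝ, 0 < C ∧
        ∀ θ : Fin n → ℝ, ∑ i, θ i = 0 → θ ≠ 0 → ∃ κ : ℝ, 0 < κ ∧ ∀ t₀ R : ℝ, 0 ≤ R →
          ∃ P : Finset (Fin n → ℤ), κ * R ≤ P.card ∧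
            ∀ x ∈ P, x ∈ Near L θ C (Set.Icc t₀ (t₀ + R)) ∧ F L x = F L x₀)) ∧
    -- 4. boxes
    (∀ V ν T : ℝ, 0 < V → 0 < ν →
      ((n.factorial : ℝ) * V < (n : ℝ) ^ n * T ∨
        ∀ L : Fin n → Fin n → ℝ, |(Matrix.of L).det| = V → ∃ x : Fin n → ℤ, x ≠ 0 ∧ |F L x| < T) →
      ∀ D : ℕ, 1 ≤ D → ∃ C : ℝ, 0 < C ∧
        ∀ L : Fin n → Fin n → ℝ, |(Matrix.of L).det| = V →
        (∀ x : Fin n → ℤ, x ≠ 0 → ν ≤ |F L x|) →
        ∀ b : Fin n → ℝ, (∀ i, 0 < b i) → ∏ i, b i = 1 →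
        (∀ G : MvPolynomial (Fin n) ℝ, G ≠ 0 → G.IsHomogeneous D →
          ∃ x : Fin n → ℤ, x ≠ 0 ∧ (∀ i, b i * |∑ j, L i j * (x j : ℝ)| ≤ C) ∧
            |F L x| < T ∧ val G x ≠ 0) ∧
        (D = n → ¬ HasMatrix L → ∃ x y : Fin n → ℤ, x ≠ 0 ∧ y ≠ 0 ∧
          (∀ i, b i * |∑ j, L i j * (x j : ℝ)| ≤ C) ∧
          (∀ i, b i * |∑ j, L i j * (y j : ℝ)| ≤ C) ∧
          |F L x| < T ∧ |F L y| < T ∧ Irrational (F L x / F L y))) := by
  classical
  have hn0 : 0 < n := by omega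
  have hn2 : 2 ≤ n := by omega
  refine ⟨fun D => exists_gen hn0 D, ?_, ?_, ?_, ?_, ?_⟩
  · -- 1a
    intro D θ hθ ν C hν hC
    obtain ⟨N, hN⟩ := few_on_line hn0 hν hC hθ
    exact ⟨N, fun L hL hb G hG0 hG P hP => (hN (Matrix.of L) (det_ne hL) hb).1 G hG0 hG P hP⟩
  · -- 2a
    intro θ hθ ν C hν hC
    obtain ⟨N, hN⟩ := few_on_line hn0 hν hC hθ
    refine ⟨N, fun L hL hb P hP hcard => ⟨fun E hE => ?_, fun hcomm => ?_⟩⟩
    · by_contra hcon
      push Not at hcon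
      obtain ⟨x, hx⟩ := hcon
      have h1 := (hN (Matrix.of L) (det_ne hL) hb).2 (polyF (Matrix.of L))
        (polyF_homogeneous _) E ⟨x, by rw [eval_polyF]; exact hx⟩ P
        (fun x hx => ⟨hP x hx, by rw [eval_polyF]; exact hE x hx⟩)
      omega
    · by_contra hcon
      have h1 := few_comm (C := C) hν (g := Matrix.of L) hb
        (hN (Matrix.of L) (det_ne hL) hb).2 (not_propInt hn (det_ne hL) hν hb hcon) P hP hcomm
      omega
  · -- 1b, 2b
    intro V ν T hV hν hT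
    obtain ⟨hYc, hYinv, hYS⟩ := all_data (d := n) (ν := ν) hn0 hV hT
    obtain ⟨C, hC, h⟩ := many_on_line hn2 hV hν hYc hYinv (fun h hh => hh.1) (fun h hh => hh.2)
      isOpen_Ioo hYS
    refine ⟨C, hC, fun D θ hD hθ => ?_⟩
    obtain ⟨κ, hκ, h⟩ := h D hD θ hθ
    refine ⟨κ, hκ, fun L hLV hb t₀ R hR => ?_⟩
    obtain ⟨h1, h2, h3⟩ := h (Matrix.of L) ⟨hLV, hb⟩ t₀ R hR
    refine ⟨fun 𝓖 h𝓖 hcard => ?_, fun hDn => ⟨fun 𝓔 h𝓔 hcard => ?_, fun K hK => ?_, fun hM => ?_⟩⟩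
    · obtain ⟨x, hx, hxT, hxG⟩ := h1 𝓖 h𝓖 hcard
      exact ⟨x, hx, abs_lt.2 hxT, hxG⟩
    · obtain ⟨x, hx, hxT, hxE⟩ := h2 (polyF (Matrix.of L)) (by
        rw [hDn]; exact polyF_homogeneous _) 𝓔 (fun E hE => by
        obtain ⟨x, hx⟩ := h𝓔 E hE
        exact ⟨x, by rw [eval_polyF]; exact hx⟩) hcard
      refine ⟨x, hx, abs_lt.2 hxT, fun E hE hcon => hxE E hE ?_⟩
      rw [eval_polyF]
      exact hcon
    · obtain ⟨P, hP1, hP2, hP3⟩ := h3 hDn K hK
      exact ⟨P, hP1, fun x hx => ⟨(hP2 x hx).1, abs_lt.2 (hP2 x hx).2⟩, hP3⟩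
    · obtain ⟨P, hP1, hP2, hP3⟩ := h3 hDn ⊥
        (exists_notMem_bot hn (indep_of_abs hV hLV) hν hb hM)
      exact ⟨P, hP1, fun x hx => ⟨(hP2 x hx).1, abs_lt.2 (hP2 x hx).2⟩,
        fun x hx y hy hxy => irrational_of_notMem (hP3 x hx y hy hxy)⟩
  · -- 3
    intro L hL ν hν hb
    have hgrowth : HasMatrix L → ∀ x₀ : Fin n → ℤ, x₀ ≠ 0 → ∃ C : ℝ, 0 < C ∧
        ∀ θ : Fin n → ℝ, ∑ i, θ i = 0 → θ ≠ 0 → ∃ κ : ℝ, 0 < κ ∧ ∀ t₀ R : ℝ, 0 ≤ R →
          ∃ P : Finset (Fin n → ℤ), κ * R ≤ P.card ∧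
            ∀ x ∈ P, x ∈ Near L θ C (Set.Icc t₀ (t₀ + R)) ∧ F L x = F L x₀ := by
      intro hM x₀ hx₀
      obtain ⟨hYc, hYinv, hYdet, hYnu, S, hSo, hS, hval⟩ := periodic_data hn0 (det_ne hL) hν hb
        (propInt hn (det_ne hL) hν hb hM) hx₀
      obtain ⟨r, hr, hray⟩ := ray_points hn0 (abs_pos.2 (det_ne hL)) hν hYc hYinv hYdet hYnu hSo hS
      refine ⟨r, hr, fun θ hθ hθ0 => ?_⟩
      obtain ⟨κ, hκ, h⟩ := hray θ hθ hθ0
      refine ⟨κ, hκ, fun t₀ R hR => ?_⟩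
      obtain ⟨P, hP1, hP2⟩ := h (Matrix.of L) (mem_orb_self _) t₀ R hR
      exact ⟨P, hP1, fun x hx => ⟨(hP2 x hx).2, hval x (hP2 x hx).1⟩⟩
    refine ⟨⟨fun hM => ?_, ?_⟩, hgrowth⟩
    · obtain ⟨θ, hθ⟩ := exists_gen hn0 n
      have hx₀ : (fun _ => 1 : Fin n → ℤ) ≠ 0 := by
        intro h0
        have := congrFun h0 ⟨0, hn0⟩
        simp at this
      obtain ⟨C, hC, h⟩ := hgrowth hM _ hx₀
      obtain ⟨κ, hκ, h⟩ := h θ hθ.1 (hθ.ne_zero hn2 (by omega))
      refine ⟨θ, hθ, C, F L (fun _ => 1), fun hfin => ?_⟩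
      obtain ⟨P, hP1, hP2⟩ := h 0 ((hfin.toFinset.card + 1) / κ) (by positivity)
      have h1 : P ⊆ hfin.toFinset := by
        intro x hx
        rw [Set.Finite.mem_toFinset]
        obtain ⟨⟨h0, t, -, ht⟩, h2⟩ := hP2 x hx
        exact ⟨⟨h0, t, Set.mem_univ _, ht⟩, h2⟩
      have h2 : (P.card : ℝ) ≤ hfin.toFinset.card := by exact_mod_cast Finset.card_le_card h1
      rw [mul_div_cancel₀ _ hκ.ne'] at hP1
      linarith
    · rintro ⟨θ, hθ, C, t, hinf⟩
      by_contra hM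
      have hC : 0 < C := by
        obtain ⟨x, ⟨hx0, s, -, hs⟩, -⟩ := hinf.nonempty
        by_contra hC
        have h1 := hs ⟨0, hn0⟩
        have h2 : C * Real.exp (s * θ ⟨0, hn0⟩) ≤ 0 :=
          mul_nonpos_of_nonpos_of_nonneg (not_lt.1 hC) (Real.exp_pos _).le
        have h3 : |∑ j, L ⟨0, hn0⟩ j * (x j : ℝ)| = 0 := le_antisymm (h1.trans h2) (abs_nonneg _)
        have h4 : F L x = 0 :=
          Finset.prod_eq_zero (Finset.mem_univ ⟨0, hn0⟩) (abs_eq_zero.1 h3)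
        have h5 := hb x hx0
        rw [h4, abs_zero] at h5
        linarith
      obtain ⟨N, hN⟩ := few_on_line hn0 hν hC hθ
      obtain ⟨P, hP1, hP2⟩ := hinf.exists_subset_card_eq (N + 1)
      have h1 := few_comm (C := C) hν (g := Matrix.of L) hb
        (hN (Matrix.of L) (det_ne hL) hb).2 (not_propInt hn (det_ne hL) hν hb hM) P
        (fun x hx => (hP1 hx).1) (fun x hx y hy => ⟨1, by
          have h2 : F L x = t := (hP1 hx).2
          have h3 : F L y = t := (hP1 hy).2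
          show F L x = ((1 : ℚ) : ℝ) * F L y
          rw [h2, h3]; simp⟩)
      omega
  · -- 4
    intro V ν T hV hν hT D hD
    obtain ⟨hYc, hYinv, hYS⟩ := all_data (d := n) (ν := ν) hn0 hV hT
    obtain ⟨C, hC, h⟩ := in_box hn2 hV hν hYc hYinv (fun h hh => hh.1) (fun h hh => hh.2)
      isOpen_Ioo hYS hD
    refine ⟨C, hC, fun L hLV hb b hb0 hb1 => ?_⟩
    have h1 := h (Matrix.of L) ⟨hLV, hb⟩ b hb0 hb1
    refine ⟨fun G hG0 hG => ?_, fun hDn hM => ?_⟩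
    · obtain ⟨x, hx0, hxC, hxT, hxG⟩ := h1 G hG0 hG
      exact ⟨x, hx0, hxC, abs_lt.2 hxT, hxG⟩
    · obtain ⟨x, ⟨hx0, hxC, hxT⟩, y, ⟨hy0, hyC, hyT⟩, hxy⟩ := box_irrational hn0 hν
        (g := Matrix.of L) hb
        (not_propInt hn (indep_of_abs hV hLV) hν hb hM)
        (Q := {x | x ≠ 0 ∧ (∀ i, b i * |((Matrix.of L).mulVec (iR x)) i| ≤ C) ∧
          FF (Matrix.of L) (iR x) ∈ Set.Ioo (-T) T}) (fun x hx => hx.1) (fun G hG0 hG => by
          obtain ⟨x, hx0, hxC, hxT, hxG⟩ := h1 G hG0 (by rw [hDn]; exact hG)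
          exact ⟨x, ⟨hx0, hxC, hxT⟩, hxG⟩)
      exact ⟨x, y, hx0, hy0, hxC, hyC, abs_lt.2 hxT, abs_lt.2 hyT, hxy⟩

end Pool.Agent.Results.MP_77d073_nt.GenericLines
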