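import Mathlib
import Pool.Agent.Q64.IG.Dir

/-! # MP_77d073_nt: planes of a counterexample stay away from invariant subspaces

Let `n ≥ 3` and let `L 1, …, L n` be real linear forms with `|det L| = V` and `|L 1 ⋯ L n| ≥ c > 0`
at the nonzero integer points. Let `e 1, …, e n` be the dual basis, `L i (e j) = δ i j`, and let `P`
in `GL_n(ℤ)` be `C`-reduced, that is, the product of the lengths of the vectors `P (e j)` is at most
`C`. (There is a constant `C` such that for all positive `t j` with product one there is such a `P`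
with `|P (e j)|` proportional to `t j`, up to constants.)

1. Let `I` be a nonempty proper set of indices and let `W I` be the intersection of the hyperplanes
   `L i = 0` with `i` not in `I`. Let `σ` be a rational matrix. We suppose that the number of
   elements of `I` is prime to `n` and that the minimal polynomial of `σ` has degree `n` or `n` is
   prime and `σ` is not scalar, or else that `σ` generates a field of degree `n` which has no proper
   subfield but `ℚ`. There is `ε > 0`, which depends only on `n`, `V`, `c`, `C`, `I`, `σ`, such that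
   Oppenheim's conclusion holds for `L 1, …, L n` as soon as, for one `C`-reduced `P`, the subspace
   `P (W I)` is `ε`-nearly invariant: for every `x` in `P (W I)` the vector `σ x` has distance at
   most `ε |x|` from `P (W I)`.
2. Let `v` be a vector with coordinates in a real field of degree at most `n`, linearly independent
   over `ℚ` if `n` is not prime. There is `ε > 0`, which depends only on `n`, `V`, `c`, `C`, `v`,
   such that Oppenheim's conclusion holds as soon as the direction of `P (e j)` has distance at most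
   `ε` from the direction of `v`, for one `C`-reduced `P` and one `j`. -/

set_option autoImplicit false

open Polynomial

namespace Pool.Agent.Results.MP_77d073_nt.NearInvariance

variable {n : ℕ}

/-- Oppenheim's conclusion: there is `A` in `SL_n(ℤ)` with irreducible characteristic polynomial and
real eigenvalues which leaves the hyperplanes `L i = 0` invariant. -/
def Conclusion (L : Fin n → Fin n → ℝ) : Prop :=
  ∃ A : Matrix (Fin n) (Fin n) ℤ,
    A.det = 1 ∧
    Irreducible (A.charpoly.map (Int.castRingHom ℚ)) ∧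
    (∀ z : ℂ, Polynomial.aeval z A.charpoly = 0 → z.im = 0) ∧
    ∀ i : Fin n, ∀ x : Fin n → ℝ, ∑ j, L i j * x j = 0 →
      ∑ j, L i j * ((A.map (Int.cast : ℤ → ℝ)).mulVec x) j = 0

/-- the determinant is `±V` and the product is at least `c` in absolute value at the nonzero integer
points -/
def Bounded (V c : ℝ) (L : Fin n → Fin n → ℝ) : Prop :=
  |(Matrix.of L).det| = V ∧ ∀ p : Fin n → ℤ, p ≠ 0 → c ≤ |∏ i, ∑ j, L i j * (p j : ℝ)|

/-- The dual basis: `L i (dual L j) = δ i j`. -/
noncomputable def dual (L : Fin n → Fin n → ℝ) (j : Fin n) : Fin n → ℝ :=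
  fun i => (Matrix.of L)⁻¹ i j

/-- `P x` for an integral matrix `P` and a real vector `x` -/
def act (P : Matrix (Fin n) (Fin n) ℤ) (x : Fin n → ℝ) : Fin n → ℝ :=
  (P.map (Int.cast : ℤ → ℝ)).mulVec x

/-- `P` is `C`-reduced with respect to the forms. The norm is the maximum norm. -/
def Reduced (C : ℝ) (L : Fin n → Fin n → ℝ) (P : Matrix (Fin n) (Fin n) ℤ) : Prop :=
  |P.det| = 1 ∧ ∏ j, ‖act P (dual L j)‖ ≤ C

/-- the intersection of the hyperplanes `L i = 0` with `i` not in `I` -/
def W (L : Fin n → Fin n → ℝ) (I : Finset (Fin n)) : Set (Fin n → ℝ) :=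
  {x | ∀ i ∉ I, ∑ j, L i j * x j = 0}

lemma dual_mem {L : Fin n → Fin n → ℝ} (hL : (Matrix.of L).det ≠ 0) {I : Finset (Fin n)}
    {i : Fin n} (hi : i ∈ I) : dual L i ∈ W L I := by
  intro k hk
  have h1 : ∑ j, L k j * dual L i j = (Matrix.of L * (Matrix.of L)⁻¹) k i := rfl
  rw [h1, Matrix.mul_nonsing_inv _ (isUnit_iff_ne_zero.2 hL), Matrix.one_apply_ne]
  rintro rfl
  exact hk hi

lemma mem_span {L : Fin n → Fin n → ℝ} (hL : (Matrix.of L).det ≠ 0) {I : Finset (Fin n)}
    {y : Fin n → ℝ} (hy : y ∈ W L I) : y ∈ Submodule.span ℝ ((fun j => dual L j) '' (I : Set (Fin n))) := by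
  have h1 : y = ∑ j, (∑ l, L j l * y l) • dual L j := by
    have h2 : y = ((Matrix.of L)⁻¹).mulVec ((Matrix.of L).mulVec y) := by
      rw [Matrix.mulVec_mulVec, Matrix.nonsing_inv_mul _ (isUnit_iff_ne_zero.2 hL),
        Matrix.one_mulVec]
    conv_lhs => rw [h2]
    funext i
    rw [Matrix.mulVec, dotProduct, Finset.sum_apply]
    refine Finset.sum_congr rfl fun j _ => ?_
    rw [Pi.smul_apply, smul_eq_mul, mul_comm]
    rfl
  rw [h1]
  refine Submodule.sum_mem _ fun j _ => ?_
  by_cases hj : j ∈ I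
  · exact Submodule.smul_mem _ _ (Submodule.subset_span ⟨j, hj, rfl⟩)
  · rw [hy j hj, zero_smul]
    exact Submodule.zero_mem _

lemma act_dual (L : Fin n → Fin n → ℝ) (P : Matrix (Fin n) (Fin n) ℤ) (j : Fin n) :
    act P (dual L j) = Pool.Agent.Q64.IG.vec (Matrix.of L) P j := rfl

lemma conclusion {V c : ℝ} (hn : 3 ≤ n) (hV : 0 < V) (hc : 0 < c) {L : Fin n → Fin n → ℝ}
    (hL : Bounded V c L) (hP : H715R2.PropInt (Matrix.of L)) : Conclusion L := by
  have hdet : (Matrix.of L).det ≠ 0 := by
    intro h0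
    have := hL.1
    rw [h0, abs_zero] at this
    exact hV.ne this
  have hli : LinearIndependent ℝ L :=
    Matrix.linearIndependent_rows_iff_isUnit.2
      ((Matrix.isUnit_iff_isUnit_det _).2 (isUnit_iff_ne_zero.2 hdet))
  exact Pool.Agent.H905R2.Opp.opp_of_propInt (by omega) hli ⟨c, hc, hL.2⟩ hP

theorem result (hn : 3 ≤ n) (V c C : ℝ) (hV : 0 < V) (hc : 0 < c) :
    -- 1. nearly invariant intersections of the hyperplanes
    (∀ I : Finset (Fin n), I.Nonempty → I ≠ Finset.univ → ∀ σ : Matrix (Fin n) (Fin n) ℚ,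
      ((Nat.Coprime I.card n ∧
          ((minpoly ℚ σ).natDegree = n ∨ (n.Prime ∧ ∀ q : ℚ, σ ≠ q • 1))) ∨
        (Irreducible (minpoly ℚ σ) ∧ (minpoly ℚ σ).natDegree = n ∧ ∀ q : ℚ[X],
          (minpoly ℚ (aeval σ q)).natDegree = 1 ∨ (minpoly ℚ (aeval σ q)).natDegree = n)) →
      ∃ ε : ℝ, 0 < ε ∧ ∀ (L : Fin n → Fin n → ℝ) (P : Matrix (Fin n) (Fin n) ℤ),
        Bounded V c L → Reduced C L P →
        (∀ x ∈ W L I, ∃ y ∈ W L I,
          ‖(σ.map (Rat.cast : ℚ → ℝ)).mulVec (act P x) - act P y‖ ≤ ε * ‖act P x‖) →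
        Conclusion L) ∧
    -- 2. directions
    (∀ (K : IntermediateField ℚ ℝ) [FiniteDimensional ℚ K], Module.finrank ℚ K ≤ n →
      ∀ v : Fin n → ℝ, (∀ i, v i ∈ K) → (LinearIndependent ℚ v ∨ n.Prime) →
      ∃ ε : ℝ, 0 < ε ∧ ∀ (L : Fin n → Fin n → ℝ) (P : Matrix (Fin n) (Fin n) ℤ),
        Bounded V c L → Reduced C L P →
        (∃ (j : Fin n) (t : ℝ), ‖act P (dual L j) - t • v‖ ≤ ε * ‖act P (dual L j)‖) →
        Conclusion L) := by
  classical
  constructor
  · intro I hI hI' σ hσ
    have hσ' : (Nat.Coprime I.card n ∧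
          ((minpoly ℚ σ).natDegree = n ∨ (n.Prime ∧ ∀ c : ℚ, σ ≠ c • 1))) ∨
          Pool.Agent.Q64.IG.Prim σ := by
      rcases hσ with h | h
      · exact Or.inl h
      · exact Or.inr (Or.inr h)
    obtain ⟨ε, hε, h⟩ := Pool.Agent.Q64.IG.near hn hV hc C I hI hI' hσ'
    refine ⟨ε, hε, fun L P hL hP hnear => ?_⟩
    have hdet : (Matrix.of L).det ≠ 0 := by
      intro h0
      have := hL.1
      rw [h0, abs_zero] at this
      exact hV.ne this
    refine conclusion hn hV hc hL (h (Matrix.of L) P hL.1 hL.2 hP fun i hi => ?_)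
    obtain ⟨y, hy, hy2⟩ := hnear _ (dual_mem hdet hi)
    refine ⟨act P y, ?_, ?_⟩
    · have h1 := mem_span hdet hy
      have h2 := Submodule.mem_map_of_mem (f := (P.map (Int.cast : ℤ → ℝ)).mulVecLin) h1
      rw [Submodule.map_span, ← Set.image_comp] at h2
      exact h2
    · have h1 : σ.map (Rat.cast : ℚ → ℝ) = Pool.Agent.Q64.IF.rQ n σ := by
        ext i j
        rw [Pool.Agent.Q64.IF.rQ_apply]
        rfl
      rw [h1] at hy2
      exact hy2
  · intro K _ hK v hv hv'
    choose ε hε h using fun j => Pool.Agent.Q64.IG.dir hn hV hc C K hK v hv hv' j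
    have hne : Nonempty (Fin n) := ⟨⟨0, by omega⟩⟩
    obtain ⟨j₀, hj₀⟩ := Finite.exists_min ε
    refine ⟨ε j₀, hε j₀, fun L P hL hP ⟨j, t, hj⟩ => ?_⟩
    refine conclusion hn hV hc hL (h j (Matrix.of L) P t hL.1 hL.2 hP (hj.trans ?_))
    exact mul_le_mul_of_nonneg_right (hj₀ j) (norm_nonneg _)

end Pool.Agent.Results.MP_77d073_nt.NearInvariance
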