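import Mathlib
import Pool.Agent.Q118.VC.Global
import Pool.Agent.TH314.CSD.Scales
import Pool.Agent.Y327.Full

/-! # MP_77d073_nt: how often a product of linear forms takes the same value

Let `n ≥ 3` and let `F = L₁ ⋯ L_n` be a product of independent real linear forms.

1. (All systems.)  Let `G` be a nonzero real form of degree `D`.  There are constants `c β γ` such
   that at every real zero `x` of `G` with `F x ≠ 0` two different monomials of degree `D` in the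
   `|L i x|` have a quotient within a factor `(D + 1) ^ n` of `exp (c β γ)`.  Let `E` be a
   `ℚ`-subspace of `ℝ` which does not contain all values of `F` at integer points.  The same holds,
   with `D = n`, at all integer points at which the value of `F` is not zero and in `E`.
2. Let `|F| ≥ ν > 0` at the nonzero integer points.  At most `C (1 + log (A X)) ^ (n - 1)` nonzero
   integer points `x` with coordinates of absolute value at most `X` have `|F x| < T`, where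
   `A ≥ 1` is a bound for the coefficients of the `L i` and `C = C(n, ν, T, D)`.  At most
   `C (1 + log (A X)) ^ (n - 2)` of them are on a given hypersurface of degree `D`.  If for one `X`
   more than `C (1 + log (A X)) ^ (n - 2)` of them have values in a `ℚ`-subspace `E`, then all
   values of `F` are in `E`; if they have pairwise commensurable values, then Oppenheim's conclusion
   holds.
3. On the other hand there are at least `κ (log X) ^ (n - 1)` such points, `κ = κ(n, V, ν, T)`,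
   `V = |det L|`, for `X ≥ C (1 + G) ^ 2`, where `G` bounds the entries of `L⁻¹` and `T` is such
   that every product with the same determinant takes a value of absolute value `< T`.  If `L` is
   recurrent (a limit of each of its limits) then this holds also for the points with value in any
   neighbourhood of any value of `F`, for all limits.
4. (Single values.)  If Oppenheim's conclusion holds, then every value is taken at least
   `κ (log X) ^ (n - 1)` times, for large `X`.  If it does not hold, then every real number `t` is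
   taken at most `C (log X) ^ (n - 2)` times. -/

set_option autoImplicit false

open Filter Topology

namespace Pool.Agent.Results.MP_77d073_nt.ZeroOneLaw

variable {n : ℕ}

/-- the product of the linear forms with the coefficients `L i`, at an integer point -/
noncomputable def F (L : Fin n → Fin n → ℝ) (x : Fin n → ℤ) : ℝ :=
  ∏ i : Fin n, ∑ j : Fin n, L i j * (x j : ℝ)

/-- the value of a real polynomial at an integer point -/
noncomputable def val (G : MvPolynomial (Fin n) ℝ) (x : Fin n → ℤ) : ℝ :=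
  MvPolynomial.eval (fun j => (x j : ℝ)) G

/-- the nonzero integer points with coordinates of absolute value at most `X` and value in `S` -/
def Points (L : Fin n → Fin n → ℝ) (S : Set ℝ) (X : ℝ) : Set (Fin n → ℤ) :=
  {x | x ≠ 0 ∧ (∀ j, |(x j : ℝ)| ≤ X) ∧ F L x ∈ S}

/-- Oppenheim's conclusion: there is an irreducible RS-matrix whose invariant planes are the
hyperplanes `L i = 0`. -/
def HasMatrix (L : Fin n → Fin n → ℝ) : Prop :=
  ∃ A : Matrix (Fin n) (Fin n) ℤ,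
    A.det = 1 ∧
    Irreducible (A.charpoly.map (Int.castRingHom ℚ)) ∧
    (∀ z : ℂ, Polynomial.aeval z A.charpoly = 0 → z.im = 0) ∧
    ∀ i : Fin n, ∀ x : Fin n → ℝ, ∑ j, L i j * x j = 0 →
      ∑ j, L i j * ((A.map (Int.cast : ℤ → ℝ)).mulVec x) j = 0

/-- The limits of the systems `a i • (L i ∘ γ)`, `a` positive of product one, `γ` integral of
determinant `±1`. -/
def Limits (L : Fin n → Fin n → ℝ) : Set (Fin n → Fin n → ℝ) :=
  closure {L' | ∃ (a : Fin n → ℝ) (γ : Matrix (Fin n) (Fin n) ℤ), (∀ i, 0 < a i) ∧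
    ∏ i, a i = 1 ∧ |γ.det| = 1 ∧ ∀ i j, L' i j = a i * ∑ k, L i k * (γ k j : ℝ)}

/-- `L` is a limit of each of its limits. -/
def Recurrent (L : Fin n → Fin n → ℝ) : Prop := ∀ L' ∈ Limits L, L ∈ Limits L'

lemma limits_eq (L : Fin n → Fin n → ℝ) (L' : Fin n → Fin n → ℝ) :
    L' ∈ Limits L ↔ Matrix.of L' ∈ closure (H715R2.Orb (Matrix.of L)) := by
  have h1 : {L' : Fin n → Fin n → ℝ | ∃ (a : Fin n → ℝ) (γ : Matrix (Fin n) (Fin n) ℤ),
      (∀ i, 0 < a i) ∧ ∏ i, a i = 1 ∧ |γ.det| = 1 ∧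
      ∀ i j, L' i j = a i * ∑ k, L i k * (γ k j : ℝ)} =
      (H715R2.Orb (Matrix.of L) : Set (Fin n → Fin n → ℝ)) := by
    ext h
    constructor
    · rintro ⟨a, γ, ha0, ha1, hγ, hh⟩
      refine ⟨a, γ, ha0, ha1, Int.isUnit_iff_abs_eq.2 hγ, ?_⟩
      funext i j
      rw [hh, Matrix.mul_assoc, Matrix.diagonal_mul, Matrix.mul_apply]
      rfl
    · rintro ⟨a, γ, ha0, ha1, hγ, hh⟩
      refine ⟨a, γ, ha0, ha1, Int.isUnit_iff_abs_eq.1 hγ, fun i j => ?_⟩
      rw [hh, Matrix.mul_assoc, Matrix.diagonal_mul, Matrix.mul_apply]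
      rfl
  unfold Limits
  rw [h1]
  rfl

open Pool.Agent.Q118.VC H715R2

lemma det_ne {L : Fin n → Fin n → ℝ} (h : LinearIndependent ℝ L) : (Matrix.of L).det ≠ 0 :=
  Pool.Agent.H905R2.Opp.det_ne h

lemma not_propInt (hn : 3 ≤ n) {L : Fin n → Fin n → ℝ} (hL : LinearIndependent ℝ L) {ν : ℝ}
    (hν : 0 < ν) (hb : ∀ x : Fin n → ℤ, x ≠ 0 → ν ≤ |F L x|) (h : ¬ HasMatrix L) :
    ¬ PropInt (Matrix.of L) := fun hP =>
  h (Pool.Agent.H905R2.Opp.opp_of_propInt (by omega) hL ⟨ν, hν, hb⟩ hP)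

lemma propInt (hn : 3 ≤ n) {L : Fin n → Fin n → ℝ} (hL : LinearIndependent ℝ L) {ν : ℝ}
    (hν : 0 < ν) (hb : ∀ x : Fin n → ℤ, x ≠ 0 → ν ≤ |F L x|) (h : HasMatrix L) :
    PropInt (Matrix.of L) := by
  obtain ⟨A, -, hA1, -, hA2⟩ := h
  exact Y327.propInt_of_opp hn (det_ne hL) hν hb hA1 hA2

theorem result (n : ℕ) (hn : 3 ≤ n) :
    -- 1. comparable monomials
    (∀ L : Fin n → Fin n → ℝ, LinearIndependent ℝ L →
      (∀ (D : ℕ) (G : MvPolynomial (Fin n) ℝ), G ≠ 0 → G.IsHomogeneous D →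
        ∃ c : (Fin n → ℕ) → (Fin n → ℕ) → ℝ, ∀ x : Fin n → ℝ,
          (∏ i, ∑ j, L i j * x j ≠ 0) → MvPolynomial.eval x G = 0 →
          ∃ β γ : Fin n → ℕ, β ≠ γ ∧ ∑ i, β i = D ∧ ∑ i, γ i = D ∧
            |∑ i, ((β i : ℝ) - γ i) * Real.log |∑ j, L i j * x j| - c β γ| ≤
              n * Real.log (D + 1)) ∧
      (∀ E : Submodule ℚ ℝ, (∃ x, F L x ∉ E) →
        ∃ c : (Fin n → ℕ) → (Fin n → ℕ) → ℝ, ∀ x : Fin n → ℤ, F L x ≠ 0 → F L x ∈ E →
          ∃ β γ : Fin n → ℕ, β ≠ γ ∧ ∑ i, β i = n ∧ ∑ i, γ i = n ∧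
            |∑ i, ((β i : ℝ) - γ i) * Real.log |∑ j, L i j * (x j : ℝ)| - c β γ| ≤
              n * Real.log (n + 1))) ∧
    -- 2. upper bounds
    (∀ ν T : ℝ, 0 < ν → ∀ D : ℕ, ∃ C : ℝ, 0 < C ∧
      ∀ L : Fin n → Fin n → ℝ, LinearIndependent ℝ L →
      (∀ x : Fin n → ℤ, x ≠ 0 → ν ≤ |F L x|) →
      ∀ A X : ℝ, 1 ≤ A → 1 ≤ X → (∀ i j, |L i j| ≤ A) →
      (Points L (Set.Ioo (-T) T) X).Finite ∧
      ((Points L (Set.Ioo (-T) T) X).ncard : ℝ) ≤ C * (1 + Real.log (A * X)) ^ (n - 1) ∧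
      (∀ G : MvPolynomial (Fin n) ℝ, G ≠ 0 → G.IsHomogeneous D →
        (({x | x ∈ Points L (Set.Ioo (-T) T) X ∧ val G x = 0}).ncard : ℝ) ≤
          C * (1 + Real.log (A * X)) ^ (n - 2)) ∧
      (D = n → ∀ P : Finset (Fin n → ℤ), (∀ x ∈ P, x ∈ Points L (Set.Ioo (-T) T) X) →
        C * (1 + Real.log (A * X)) ^ (n - 2) < P.card →
        (∀ E : Submodule ℚ ℝ, (∀ x ∈ P, F L x ∈ E) → ∀ x, F L x ∈ E) ∧
        ((∀ x ∈ P, ∀ y ∈ P, ∃ q : ℚ, F L x = q * F L y) → HasMatrix L))) ∧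
    -- 3. lower bounds
    (∀ V ν T : ℝ, 0 < V → 0 < ν →
      ((n.factorial : ℝ) * V < (n : ℝ) ^ n * T ∨
        ∀ L : Fin n → Fin n → ℝ, |(Matrix.of L).det| = V → ∃ x : Fin n → ℤ, x ≠ 0 ∧ |F L x| < T) →
      ∃ C : ℝ, 1 ≤ C ∧ ∃ κ : ℝ, 0 < κ ∧
        ∀ L : Fin n → Fin n → ℝ, |(Matrix.of L).det| = V →
        (∀ x : Fin n → ℤ, x ≠ 0 → ν ≤ |F L x|) →
        ∀ G : ℝ, (∀ i j, |(Matrix.of L)⁻¹ i j| ≤ G) → ∀ X : ℝ, C * (1 + G) ^ 2 ≤ X →
        κ * Real.log X ^ (n - 1) ≤ ((Points L (Set.Ioo (-T) T) X).ncard : ℝ)) ∧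
    (∀ L : Fin n → Fin n → ℝ, LinearIndependent ℝ L → ∀ ν : ℝ, 0 < ν →
      (∀ x : Fin n → ℤ, x ≠ 0 → ν ≤ |F L x|) → Recurrent L →
      ∀ x₀ : Fin n → ℤ, x₀ ≠ 0 → ∀ U : Set ℝ, IsOpen U → F L x₀ ∈ U →
      ∃ C : ℝ, 1 ≤ C ∧ ∃ κ : ℝ, 0 < κ ∧ ∀ L' ∈ Limits L,
        ∀ G : ℝ, (∀ i j, |(Matrix.of L')⁻¹ i j| ≤ G) → ∀ X : ℝ, C * (1 + G) ^ 2 ≤ X →
        κ * Real.log X ^ (n - 1) ≤ ((Points L' U X).ncard : ℝ)) ∧
    -- 4. single values
    (∀ L : Fin n → Fin n → ℝ, LinearIndependent ℝ L → ∀ ν : ℝ, 0 < ν →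
      (∀ x : Fin n → ℤ, x ≠ 0 → ν ≤ |F L x|) →
      (HasMatrix L → ∀ x₀ : Fin n → ℤ, x₀ ≠ 0 → ∃ κ : ℝ, 0 < κ ∧ ∃ X₀ : ℝ, ∀ X : ℝ, X₀ ≤ X →
        κ * Real.log X ^ (n - 1) ≤
          (({x : Fin n → ℤ | (∀ j, |(x j : ℝ)| ≤ X) ∧ F L x = F L x₀}).ncard : ℝ)) ∧
      (¬ HasMatrix L → ∀ t : ℝ, ∃ C : ℝ, ∀ X : ℝ, 2 ≤ X →
        (({x : Fin n → ℤ | (∀ j, |(x j : ℝ)| ≤ X) ∧ F L x = t}).ncard : ℝ) ≤
          C * Real.log X ^ (n - 2))) := by
  classical
  have hn0 : 0 < n := by omega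
  have hn2 : 2 ≤ n := by omega
  refine ⟨fun L hL => ⟨fun D G hG0 hG => ?_, fun E hE => ?_⟩, ?_, ?_, ?_, ?_⟩
  · -- 1
    obtain ⟨c, hc⟩ := structure_zero (det_ne hL) hG0 hG
    exact ⟨c, fun x hx hxG => hc x hx hxG⟩
  · have hE' : ∃ x : Fin n → ℤ, MvPolynomial.eval (iR x) (polyF (Matrix.of L)) ∉ E := by
      obtain ⟨x, hx⟩ := hE
      exact ⟨x, by rw [eval_polyF]; exact hx⟩
    obtain ⟨G, ⟨hG0, hG⟩, hGE⟩ := exists_hyp (polyF_homogeneous (Matrix.of L)) hE'
    obtain ⟨c, hc⟩ := structure_zero (det_ne hL) hG0 hG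
    refine ⟨c, fun x hx hxE => hc (iR x) hx (hGE x ?_)⟩
    rw [eval_polyF]
    exact hxE
  · -- 2
    intro ν T hν D
    obtain ⟨C, hC, h⟩ := upper_box hn0 hν T D
    refine ⟨C, hC, fun L hL hb A X hA hX hLA => ?_⟩
    obtain ⟨h1, h2⟩ := h (Matrix.of L) (det_ne hL) hb A X hA hX hLA
    refine ⟨PS_finite (Matrix.of L) _ X, h1, h2, fun hDn P hP hcard => ?_⟩
    have key : ∀ E : Submodule ℚ ℝ, (∀ x ∈ P, F L x ∈ E) → ∀ x, F L x ∈ E := by
      intro E hPE
      by_contra hcon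
      push Not at hcon
      have hE' : ∃ x : Fin n → ℤ, MvPolynomial.eval (iR x) (polyF (Matrix.of L)) ∉ E := by
        obtain ⟨x, hx⟩ := hcon
        exact ⟨x, by rw [eval_polyF]; exact hx⟩
      obtain ⟨G, ⟨hG0, hG⟩, hGE⟩ := exists_hyp (polyF_homogeneous (Matrix.of L)) hE'
      have h3 := h2 G hG0 (by rw [hDn]; exact hG)
      have h4 : (P : Set (Fin n → ℤ)) ⊆
          {x | x ∈ PS (Matrix.of L) (Set.Ioo (-T) T) X ∧ MvPolynomial.eval (iR x) G = 0} := by
        intro x hx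
        refine ⟨hP x hx, hGE x ?_⟩
        rw [eval_polyF]
        exact hPE x hx
      have h5 : P.card ≤ ({x | x ∈ PS (Matrix.of L) (Set.Ioo (-T) T) X ∧
          MvPolynomial.eval (iR x) G = 0}).ncard := by
        rw [← Set.ncard_coe_finset]
        exact Set.ncard_le_ncard h4 ((PS_finite (Matrix.of L) _ X).subset fun x hx => hx.1)
      have h6 : (P.card : ℝ) ≤ (({x | x ∈ PS (Matrix.of L) (Set.Ioo (-T) T) X ∧
          MvPolynomial.eval (iR x) G = 0}).ncard : ℝ) := by exact_mod_cast h5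
      have h7 := h6.trans h3
      linarith
    refine ⟨key, fun hcomm => ?_⟩
    by_contra hM
    rcases P.eq_empty_or_nonempty with hP0 | ⟨y, hy⟩
    · rw [hP0, Finset.card_empty, Nat.cast_zero] at hcard
      have hAX : 1 ≤ A * X := by nlinarith
      have : 0 ≤ C * (1 + Real.log (A * X)) ^ (n - 2) :=
        mul_nonneg hC.le (pow_nonneg (by linarith [Real.log_nonneg hAX]) _)
      linarith
    · have hyne : F L y ≠ 0 := ff_ne hν (g := Matrix.of L) hb (hP y hy).1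
      refine not_propInt hn hL hν hb hM (propInt_of_values hyne fun x => ?_)
      refine key (Submodule.span ℚ {F L y}) (fun x hx => ?_) x
      obtain ⟨q, hq⟩ := hcomm x hx y hy
      rw [Submodule.mem_span_singleton]
      exact ⟨q, by rw [hq, Rat.smul_def]⟩
  · -- 3
    intro V ν T hV hν hT
    obtain ⟨hYc, hYinv, hYS⟩ := all_data (d := n) (ν := ν) hn0 hV hT
    obtain ⟨C, hC, h⟩ := lower' hn2 hV hν hYc hYinv (fun h hh => hh.1) (fun h hh => hh.2)
      isOpen_Ioo hYS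
    obtain ⟨κ, hκ, h⟩ := h 0
    exact ⟨C, hC, κ, hκ, fun L hLV hb G hG X hX => (h (Matrix.of L) ⟨hLV, hb⟩ G hG X hX).1⟩
  · intro L hL ν hν hb hrec x₀ hx₀ U hU hxU
    have hrec' : TH314.CSD.Recurrent (Matrix.of L) := by
      intro h' hh'
      have h1 := hrec (fun i j => h' i j) ((limits_eq L _).2 hh')
      exact (limits_eq _ _).1 h1
    obtain ⟨C, hC, h⟩ := lower' hn2 (abs_pos.2 (det_ne hL)) hν
      (Y := closure (Orb (Matrix.of L))) isClosed_closure (TH314.CSD.inv_closure _)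
      (fun h' hh' => abs_det_closure hh') (fun h' hh' => hasNu_closure hb hh') hU
      (fun h' hh' => TH314.CSD.exists_value_near (hrec' h' hh') hx₀ (hU.mem_nhds hxU))
    obtain ⟨κ, hκ, h⟩ := h 0
    exact ⟨C, hC, κ, hκ, fun L' hL' G hG X hX =>
      (h (Matrix.of L') ((limits_eq L L').1 hL') G hG X hX).1⟩
  · -- 4
    intro L hL ν hν hb
    exact ⟨fun hM x₀ hx₀ => periodic_growth hn2 (det_ne hL) hν hb (propInt hn hL hν hb hM) hx₀,
      fun hM t => single_upper hn2 (det_ne hL) hν hb (not_propInt hn hL hν hb hM) t⟩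

end Pool.Agent.Results.MP_77d073_nt.ZeroOneLaw
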